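import Pool.Agent.Q187.Agg.LC

/-!
# The contradiction for three forms with negative definite sum
-/

open Matrix

namespace Q187.Agg

variable {ι : Type*} [Fintype ι]

theorem core {Q1 Q2 Q3 : Matrix ι ι ℝ} (h2 : Q2.IsSymm) (h3 : Q3.IsSymm)
    (hW : ∀ x : ι → ℝ, x ≠ 0 → bf Q1 x x + bf Q2 x x + bf Q3 x x < 0)
    {α β : ℝ} (hα : 0 < α) (hβ : 0 < β) (hαβ : α + β < 1) (l12 l13 : ι → ℝ)
    (hl12 : ∀ x, l12 ⬝ᵥ x = 0 → 0 ≤ bf Q2 x x + α * bf Q1 x x)
    (hl13 : ∀ x, l13 ⬝ᵥ x = 0 → 0 ≤ bf Q3 x x + β * bf Q1 x x)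
    {x0 x1 x2 : ℝ} (hx1 : 0 ≤ x1) (hx10 : x1 < x0) (hx02 : x0 < x2) (hx2 : x2 ≤ 1)
    (hLC : LC (x0 • Q2 + (1 - x0) • Q3)) (hn1 : ¬ LC (x1 • Q2 + (1 - x1) • Q3))
    (hn2 : ¬ LC (x2 • Q2 + (1 - x2) • Q3)) : False := by
  set P : Matrix ι ι ℝ := (1 - α) • Q2 + (-α) • Q3 with hP
  set R : Matrix ι ι ℝ := (1 - β) • Q3 + (-β) • Q2 with hR
  have hPs : P.IsSymm := (h2.smul _).add (h3.smul _)
  have hRs : R.IsSymm := (h3.smul _).add (h2.smul _)
  have hPpos : ∀ x : ι → ℝ, l12 ⬝ᵥ x = 0 → 0 ≤ bf P x x := by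
    intro x hx
    have h := hl12 x hx
    have e : bf P x x = (bf Q2 x x + α * bf Q1 x x)
        + α * (-(bf Q1 x x + bf Q2 x x + bf Q3 x x)) := by
      rw [hP]; simp only [bf_add_mat, bf_smul_mat]; ring
    rw [e]
    by_cases h0 : x = 0
    · subst h0; simp [bf]
    · have := mul_pos hα (neg_pos.mpr (hW x h0))
      linarith
  have hRpos : ∀ x : ι → ℝ, x ≠ 0 → l13 ⬝ᵥ x = 0 → 0 < bf R x x := by
    intro x h0 hx
    have h := hl13 x hx
    have e : bf R x x = (bf Q3 x x + β * bf Q1 x x)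
        + β * (-(bf Q1 x x + bf Q2 x x + bf Q3 x x)) := by
      rw [hR]; simp only [bf_add_mat, bf_smul_mat]; ring
    rw [e]
    have := mul_pos hβ (neg_pos.mpr (hW x h0))
    linarith
  -- the parameter
  let D : ℝ → ℝ := fun x => (1 - β) * x + β * (1 - x)
  let N : ℝ → ℝ := fun x => (1 - α) * (1 - x) + α * x
  have hD : ∀ x, 0 ≤ x → x ≤ 1 → 0 < D x := by
    intro x h0 h1
    show 0 < (1 - β) * x + β * (1 - x)
    rcases eq_or_lt_of_le h0 with h | h
    · rw [← h]; linarith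
    · have := mul_pos (show 0 < 1 - β by linarith) h
      have := mul_nonneg hβ.le (sub_nonneg.mpr h1)
      linarith
  have hN : ∀ x, 0 ≤ x → x ≤ 1 → 0 < N x := by
    intro x h0 h1
    show 0 < (1 - α) * (1 - x) + α * x
    rcases eq_or_lt_of_le h0 with h | h
    · rw [← h]; linarith
    · have := mul_pos hα h
      have := mul_nonneg (show 0 ≤ 1 - α by linarith) (sub_nonneg.mpr h1)
      linarith
  have hF : ∀ x, 0 ≤ x → x ≤ 1 → (LC (P + (N x / D x) • R) ↔ LC (x • Q2 + (1 - x) • Q3)) := by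
    intro x h0 h1
    have hDx := hD x h0 h1
    have e : P + (N x / D x) • R = ((1 - α - β) / D x) • (x • Q2 + (1 - x) • Q3) := by
      ext i j
      simp only [hP, hR, Matrix.add_apply, Matrix.smul_apply, smul_eq_mul]
      field_simp
      show _ = _
      simp only [D, N]
      ring
    rw [e]
    exact LC_smul_iff (div_pos (by linarith) hDx)
  have hanti : ∀ x y, 0 ≤ x → x < y → y ≤ 1 → N y / D y < N x / D x := by
    intro x y h0 hxy h1
    rw [div_lt_div_iff₀ (hD y (by linarith) h1) (hD x h0 (by linarith))]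
    have : N x * D y - N y * D x = (1 - α - β) * (y - x) := by
      simp only [D, N]; ring
    have := mul_pos (show 0 < 1 - α - β by linarith) (sub_pos.mpr hxy)
    linarith
  clear_value P R
  have h2pos : 0 < N x2 / D x2 :=
    div_pos (hN x2 (by linarith) hx2) (hD x2 (by linarith) hx2)
  obtain ⟨s, hs1, hs2, v, hv0, hv1, hv2⟩ := jump hPs hRs h2pos
    (by rw [zero_smul, add_zero]; exact LC_of_ell hPs l12 hPpos)
    (by rw [hF x2 (by linarith) hx2]; exact hn2)
  obtain ⟨s', hs1', hs2', v', hv0', hv1', hv2'⟩ := jump hPs hRs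
    (hanti x1 x0 hx1 hx10 (by linarith))
    (by rw [hF x0 (by linarith) (by linarith)]; exact hLC)
    (by rw [hF x1 hx1 (by linarith)]; exact hn1)
  have hlt : s < s' := by
    have := hanti x0 x2 (by linarith) hx02 hx2
    linarith
  have e1 : bf P v' v + s * bf R v' v = 0 := by
    rw [← bf_smul_mat, ← bf_add_mat]; unfold bf; rw [hv1]; simp
  have e2 : bf P v v' + s' * bf R v v' = 0 := by
    rw [← bf_smul_mat, ← bf_add_mat]; unfold bf; rw [hv1']; simp
  rw [bf_comm hPs v' v, bf_comm hRs v' v] at e1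
  have e3 : bf R v v' = 0 := by
    have : (s' - s) * bf R v v' = 0 := by linarith
    exact (mul_eq_zero.mp this).resolve_left (by linarith)
  have hlv : l13 ⬝ᵥ v ≠ 0 := fun h => by have := hRpos v hv0 h; linarith
  set a := l13 ⬝ᵥ v with ha
  set b := l13 ⬝ᵥ v' with hb
  have hz : b • v + (-a) • v' = 0 := by
    by_contra hz0
    have h := hRpos _ hz0 (by
      rw [dotProduct_add, dotProduct_smul, dotProduct_smul, ← ha, ← hb]
      simp only [smul_eq_mul]; ring)
    rw [bf_add_left, bf_add_right, bf_add_right, bf_smul_left, bf_smul_left, bf_smul_left,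
      bf_smul_left, bf_smul_right, bf_smul_right, bf_smul_right, bf_smul_right,
      bf_comm hRs v' v, e3] at h
    have h4 : b ^ 2 * bf R v v ≤ 0 := mul_nonpos_of_nonneg_of_nonpos (sq_nonneg _) hv2
    have h5 : a ^ 2 * bf R v' v' ≤ 0 := mul_nonpos_of_nonneg_of_nonpos (sq_nonneg _) hv2'
    linarith
  have hv' : v' = (b / a) • v := by
    have h6 : a • v' = b • v := by
      have := add_eq_zero_iff_eq_neg.mp hz
      rw [this, neg_smul, neg_neg]
    rw [div_eq_inv_mul, mul_smul, ← h6, smul_smul, inv_mul_cancel₀ hlv, one_smul]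
  have hc : b / a ≠ 0 := by
    intro h; rw [h, zero_smul] at hv'; exact hv0' hv'
  have hRv : R *ᵥ v = 0 := by
    have h7 : (P + s' • R) *ᵥ v = 0 := by
      have h8 := hv1'
      rw [hv', mulVec_smul] at h8
      exact (smul_eq_zero.mp h8).resolve_left hc
    have h9 : (s' - s) • (R *ᵥ v) = 0 := by
      have h10 : (P + s' • R) *ᵥ v - (P + s • R) *ᵥ v = (s' - s) • (R *ᵥ v) := by
        rw [add_mulVec, add_mulVec, smul_mulVec, smul_mulVec, sub_smul]; abel
      rw [← h10, h7, hv1, sub_zero]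
    exact (smul_eq_zero.mp h9).resolve_left (by linarith)
  have hRall : ∀ y, 0 ≤ bf R y y := by
    intro y
    have hyv : ∀ w, bf R w v = 0 := fun w => by unfold bf; rw [hRv]; simp
    have hvy : ∀ w, bf R v w = 0 := fun w => by rw [bf_comm hRs]; exact hyv w
    obtain ⟨y', hy'⟩ : ∃ y', y' = y + (-(l13 ⬝ᵥ y / a)) • v := ⟨_, rfl⟩
    have h11 : l13 ⬝ᵥ y' = 0 := by
      rw [hy', dotProduct_add, dotProduct_smul, ← ha, smul_eq_mul, neg_mul,
        div_mul_cancel₀ _ hlv, add_neg_cancel]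
    have h12 : bf R y' y' = bf R y y := by
      rw [hy', bf_add_left, bf_add_right, bf_smul_left, bf_smul_right, hyv, hvy]; ring
    rw [← h12]
    by_cases h0 : y' = 0
    · rw [h0]; simp [bf]
    · exact (hRpos y' h0 h11).le
  refine hn1 ((hF x1 hx1 (by linarith)).mp ?_)
  refine LC_mono (hPs.add (hRs.smul _)) (hPs.add (hRs.smul _))
    ((hF x0 (by linarith) (by linarith)).mpr hLC) fun y => ?_
  rw [bf_add_mat, bf_add_mat, bf_smul_mat, bf_smul_mat]
  have h13 := hanti x1 x0 hx1 hx10 (by linarith)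
  have := mul_le_mul_of_nonneg_right h13.le (hRall y)
  linarith

/-- an edge: a good interior point, with bad points on both sides -/
def Edge (A B : Matrix ι ι ℝ) : Prop :=
  ∃ x0 x1 x2 : ℝ, 0 ≤ x1 ∧ x1 < x0 ∧ x0 < x2 ∧ x2 ≤ 1 ∧ LC (x0 • A + (1 - x0) • B) ∧
    ¬ LC (x1 • A + (1 - x1) • B) ∧ ¬ LC (x2 • A + (1 - x2) • B)

lemma Edge.symm {A B : Matrix ι ι ℝ} (h : Edge A B) : Edge B A := by
  obtain ⟨x0, x1, x2, h1, h2, h3, h4, h5, h6, h7⟩ := h
  refine ⟨1 - x0, 1 - x2, 1 - x1, by linarith, by linarith, by linarith, by linarith, ?_, ?_, ?_⟩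
  · rw [sub_sub_cancel, add_comm]; exact h5
  · rw [sub_sub_cancel, add_comm]; exact h7
  · rw [sub_sub_cancel, add_comm]; exact h6

theorem no_three_edges (hcard : 4 ≤ Fintype.card ι) {Q1 Q2 Q3 : Matrix ι ι ℝ}
    (h1 : Q1.IsSymm) (h2 : Q2.IsSymm) (h3 : Q3.IsSymm)
    (hW : ∀ x : ι → ℝ, x ≠ 0 → bf Q1 x x + bf Q2 x x + bf Q3 x x < 0)
    (h12 : Edge Q1 Q2) (h13 : Edge Q1 Q3) (h23 : Edge Q2 Q3) : False := by
  have ext : ∀ {A B : Matrix ι ι ℝ}, A.IsSymm → B.IsSymm → Edge A B → ∃ x : ℝ, 0 < x ∧ x < 1 ∧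
      ∃ l : ι → ℝ, ∀ y, l ⬝ᵥ y = 0 → 0 ≤ x * bf A y y + (1 - x) * bf B y y := by
    rintro A B hA hB ⟨x0, x1, x2, g1, g2, g3, g4, g5, -, -⟩
    obtain ⟨l, hl, -⟩ := ell_of_LC ((hA.smul x0).add (hB.smul (1 - x0))) g5
    refine ⟨x0, by linarith, by linarith, l, fun y hy => ?_⟩
    have := hl y hy
    rwa [bf_add_mat, bf_smul_mat, bf_smul_mat] at this
  obtain ⟨x, hx0, hx1, l, hl⟩ := ext h1 h2 h12
  obtain ⟨y, hy0, hy1, m, hm⟩ := ext h1 h3 h13
  obtain ⟨w, hw0, hw1, k, hk⟩ := ext h2 h3 h23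
  obtain ⟨z, hz, z1, z2, z3⟩ := exists_orth hcard l m k
  have q1 := hl z z1
  have q2 := hm z z2
  have q3 := hk z z3
  have qW := hW z hz
  set g1 := bf Q1 z z
  set g2 := bf Q2 z z
  set g3 := bf Q3 z z
  -- general application of `core`
  have app : ∀ {A B C : Matrix ι ι ℝ}, A.IsSymm → B.IsSymm → C.IsSymm →
      (∀ x : ι → ℝ, x ≠ 0 → bf A x x + bf B x x + bf C x x < 0) → Edge B C →
      ∀ (x : ℝ), 0 < x → x < 1 → ∀ (y : ℝ), 0 < y → y < 1 → ∀ (l m : ι → ℝ),
      (∀ u, l ⬝ᵥ u = 0 → 0 ≤ x * bf A u u + (1 - x) * bf B u u) →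
      (∀ u, m ⬝ᵥ u = 0 → 0 ≤ y * bf A u u + (1 - y) * bf C u u) →
      l ⬝ᵥ z = 0 → m ⬝ᵥ z = 0 → bf A z z < 0 → False := by
    intro A B C hA hB hC hWW hE x hx0 hx1 y hy0 hy1 l m hl hm hlz hmz hneg
    obtain ⟨e0, e1, e2, f1, f2, f3, f4, f5, f6, f7⟩ := hE
    have a1 := hl z hlz
    have a2 := hm z hmz
    have a3 := hWW z hz
    have hx1' : 0 < 1 - x := by linarith
    have hy1' : 0 < 1 - y := by linarith
    have b1 : x / (1 - x) * (-bf A z z) ≤ bf B z z := by
      rw [div_mul_eq_mul_div, div_le_iff₀ hx1']; linarith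
    have b2 : y / (1 - y) * (-bf A z z) ≤ bf C z z := by
      rw [div_mul_eq_mul_div, div_le_iff₀ hy1']; linarith
    refine core hB hC hWW (div_pos hx0 hx1') (div_pos hy0 hy1') ?_ l m ?_ ?_ f1 f2 f3 f4 f5 f6 f7
    · have b3 : (x / (1 - x) + y / (1 - y)) * (-bf A z z) < 1 * (-bf A z z) := by linarith
      exact lt_of_mul_lt_mul_right b3 (by linarith)
    · intro u hu
      have := hl u hu
      have e : bf B u u + x / (1 - x) * bf A u u
          = (x * bf A u u + (1 - x) * bf B u u) / (1 - x) := by field_simp; ring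
      rw [e]; positivity
    · intro u hu
      have := hm u hu
      have e : bf C u u + y / (1 - y) * bf A u u
          = (y * bf A u u + (1 - y) * bf C u u) / (1 - y) := by field_simp; ring
      rw [e]; positivity
  rcases lt_or_ge g1 0 with n1 | n1
  · exact app h1 h2 h3 hW h23 x hx0 hx1 y hy0 hy1 l m hl hm z1 z2 n1
  rcases lt_or_ge g2 0 with n2 | n2
  · refine app h2 h1 h3 (fun x hx => by have := hW x hx; linarith) h13 (1 - x) (by linarith)
      (by linarith) w hw0 hw1 l k (fun u hu => ?_) hk z1 z3 n2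
    have := hl u hu; rw [sub_sub_cancel]; linarith
  rcases lt_or_ge g3 0 with n3 | n3
  · refine app h3 h1 h2 (fun x hx => by have := hW x hx; linarith) h12 (1 - y) (by linarith)
      (by linarith) (1 - w) (by linarith) (by linarith) m k (fun u hu => ?_) (fun u hu => ?_)
      z2 z3 n3
    · have := hm u hu; rw [sub_sub_cancel]; linarith
    · have := hk u hu; rw [sub_sub_cancel]; linarith
  linarith

end Q187.Agg
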