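import Pool.Agent.Q187.Agg.LC

/-!
# At most one negative eigenvalue is the condition `LC`
-/

open Matrix

namespace Q187.Agg

variable {ι : Type*} [Fintype ι] [DecidableEq ι]

/-- The symmetric matrix `M` has at most one negative eigenvalue (counted with multiplicity). -/
def AtMostOneNeg (M : Matrix ι ι ℝ) : Prop :=
  ∃ hM : M.IsHermitian, (Finset.univ.filter (fun i => hM.eigenvalues i < 0)).card ≤ 1

lemma inner_eig {M : Matrix ι ι ℝ} (hM : M.IsHermitian) (i j : ι) :
    (⇑(hM.eigenvectorBasis i) : ι → ℝ) ⬝ᵥ ⇑(hM.eigenvectorBasis j) = if i = j then 1 else 0 := by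
  have h := orthonormal_iff_ite.mp hM.eigenvectorBasis.orthonormal i j
  rw [EuclideanSpace.inner_eq_star_dotProduct] at h
  rw [dotProduct_comm]
  simpa using h

lemma expand_eig {M : Matrix ι ι ℝ} (hM : M.IsHermitian) (x : ι → ℝ) :
    x = ∑ i, ((⇑(hM.eigenvectorBasis i) : ι → ℝ) ⬝ᵥ x) • (⇑(hM.eigenvectorBasis i) : ι → ℝ) := by
  have h := hM.eigenvectorBasis.sum_repr' (WithLp.toLp 2 x)
  have h2 := congrArg (WithLp.ofLp) h
  funext k
  have h3 := congrFun h2 k
  simp only [EuclideanSpace.inner_eq_star_dotProduct, WithLp.ofLp_sum, WithLp.ofLp_smul,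
    Finset.sum_apply, Pi.smul_apply, smul_eq_mul, star_trivial] at h3
  simp only [Finset.sum_apply, Pi.smul_apply, smul_eq_mul]
  rw [← h3]
  refine Finset.sum_congr rfl fun i _ => ?_
  rw [dotProduct_comm]

lemma bf_eig {M : Matrix ι ι ℝ} (hM : M.IsHermitian) (x : ι → ℝ) :
    bf M x x = ∑ i, hM.eigenvalues i * ((⇑(hM.eigenvectorBasis i) : ι → ℝ) ⬝ᵥ x) ^ 2 := by
  have h1 : M *ᵥ x = ∑ i, (hM.eigenvalues i * ((⇑(hM.eigenvectorBasis i) : ι → ℝ) ⬝ᵥ x)) •
      (⇑(hM.eigenvectorBasis i) : ι → ℝ) := by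
    conv_lhs => rw [expand_eig hM x]
    rw [mulVec_sum]
    refine Finset.sum_congr rfl fun i _ => ?_
    rw [mulVec_smul, hM.mulVec_eigenvectorBasis, smul_smul, mul_comm]
  unfold bf
  rw [h1, dotProduct_sum]
  refine Finset.sum_congr rfl fun i _ => ?_
  rw [dotProduct_smul, smul_eq_mul, dotProduct_comm x]
  ring

lemma LC_of_atMost {M : Matrix ι ι ℝ} (h : AtMostOneNeg M) : LC M := by
  obtain ⟨hM, hc⟩ := h
  have hs : M.IsSymm := by
    have := hM
    rwa [Matrix.IsHermitian, conjTranspose_eq_transpose_of_trivial] at this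
  by_cases hex : ∃ j, hM.eigenvalues j < 0
  · obtain ⟨j, hj⟩ := hex
    refine LC_of_ell hs (⇑(hM.eigenvectorBasis j)) fun x hx => ?_
    rw [bf_eig hM]
    refine Finset.sum_nonneg fun i _ => ?_
    by_cases hij : i = j
    · subst hij; rw [hx]; simp
    · refine mul_nonneg ?_ (sq_nonneg _)
      by_contra hneg
      push Not at hneg
      have := Finset.card_le_one.mp hc i (by simp [hneg]) j (by simp [hj])
      exact hij this
  · push Not at hex
    refine LC_of_ell hs 0 fun x _ => ?_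
    rw [bf_eig hM]
    exact Finset.sum_nonneg fun i _ => mul_nonneg (hex i) (sq_nonneg _)

lemma atMost_of_LC {M : Matrix ι ι ℝ} (hs : M.IsSymm) (h : LC M) : AtMostOneNeg M := by
  have hM : M.IsHermitian := by
    rw [Matrix.IsHermitian, conjTranspose_eq_transpose_of_trivial]; exact hs
  refine ⟨hM, ?_⟩
  rw [Finset.card_le_one]
  intro i hi j hj
  simp only [Finset.mem_filter, Finset.mem_univ, true_and] at hi hj
  by_contra hij
  have e : ∀ a b, bf M (⇑(hM.eigenvectorBasis a)) (⇑(hM.eigenvectorBasis b))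
      = hM.eigenvalues b * (if a = b then 1 else 0) := by
    intro a b
    unfold bf
    rw [hM.mulVec_eigenvectorBasis, dotProduct_smul, inner_eig, smul_eq_mul]
  have h1 := h (⇑(hM.eigenvectorBasis i)) (⇑(hM.eigenvectorBasis j)) (by
    rw [e]; simpa using hi)
  rw [e, e, e] at h1
  simp only [if_true, mul_one, hij, if_false, mul_zero] at h1
  have := mul_pos_of_neg_of_neg hi hj
  norm_num at h1
  linarith

end Q187.Agg
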