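import Mathlib

/-!
# Symmetric matrices with at most one negative eigenvalue: the reverse Cauchy–Schwarz condition
-/

open Matrix

namespace Q187.Agg

variable {ι : Type*} [Fintype ι]

/-- the bilinear form of a matrix -/
def bf (M : Matrix ι ι ℝ) (x y : ι → ℝ) : ℝ := x ⬝ᵥ (M *ᵥ y)

lemma bf_add_mat (M N : Matrix ι ι ℝ) (x y : ι → ℝ) : bf (M + N) x y = bf M x y + bf N x y := by
  simp [bf, add_mulVec, dotProduct_add]

lemma bf_smul_mat (c : ℝ) (M : Matrix ι ι ℝ) (x y : ι → ℝ) : bf (c • M) x y = c * bf M x y := by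
  simp [bf, smul_mulVec, dotProduct_smul]

lemma bf_add_left (M : Matrix ι ι ℝ) (x x' y : ι → ℝ) : bf M (x + x') y = bf M x y + bf M x' y := by
  simp [bf, add_dotProduct]

lemma bf_smul_left (M : Matrix ι ι ℝ) (c : ℝ) (x y : ι → ℝ) : bf M (c • x) y = c * bf M x y := by
  simp [bf, smul_dotProduct]

lemma bf_add_right (M : Matrix ι ι ℝ) (x y y' : ι → ℝ) :
    bf M x (y + y') = bf M x y + bf M x y' := by
  simp [bf, mulVec_add, dotProduct_add]

lemma bf_smul_right (M : Matrix ι ι ℝ) (c : ℝ) (x y : ι → ℝ) : bf M x (c • y) = c * bf M x y := by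
  simp [bf, mulVec_smul, dotProduct_smul]

lemma bf_comm {M : Matrix ι ι ℝ} (hM : M.IsSymm) (x y : ι → ℝ) : bf M x y = bf M y x := by
  unfold bf
  rw [dotProduct_mulVec, dotProduct_comm, ← mulVec_transpose, hM.eq]

lemma continuous_bf (M : Matrix ι ι ℝ) : Continuous fun x : ι → ℝ => bf M x x := by
  unfold bf dotProduct mulVec dotProduct
  fun_prop

/-- Reverse Cauchy–Schwarz: equivalent to at most one negative eigenvalue. -/
def LC (M : Matrix ι ι ℝ) : Prop :=
  ∀ x y, bf M x x < 0 → bf M x x * bf M y y ≤ bf M x y ^ 2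

lemma eq_zero_of_forall {a b : ℝ} (h : ∀ t : ℝ, 0 ≤ 2 * t * a + b) : a = 0 := by
  by_contra ha
  have := h (-(b + 1) / (2 * a))
  have h2 : 2 * (-(b + 1) / (2 * a)) * a + b = -1 := by field_simp; ring
  linarith

lemma mulVec_eq_zero_of {M : Matrix ι ι ℝ} {x : ι → ℝ} (h : ∀ y, bf M y x = 0) :
    M *ᵥ x = 0 := by
  have := h (M *ᵥ x)
  unfold bf at this
  exact dotProduct_self_eq_zero.mp this

lemma ell_of_LC {M : Matrix ι ι ℝ} (hM : M.IsSymm) (h : LC M) :
    ∃ l : ι → ℝ, (∀ x, l ⬝ᵥ x = 0 → 0 ≤ bf M x x) ∧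
      ∀ x, l ⬝ᵥ x = 0 → bf M x x = 0 → M *ᵥ x = 0 := by
  by_cases hp : ∀ x, 0 ≤ bf M x x
  · refine ⟨0, fun x _ => hp x, fun x _ hx => mulVec_eq_zero_of fun y => ?_⟩
    refine eq_zero_of_forall (b := bf M y y) fun t => ?_
    have := hp (t • x + y)
    rw [bf_add_left, bf_add_right, bf_add_right, bf_smul_left, bf_smul_left, bf_smul_right,
      bf_smul_right, hx, bf_comm hM x y] at this
    linarith
  · push Not at hp
    obtain ⟨w, hw⟩ := hp
    have hl : ∀ x, (M *ᵥ w) ⬝ᵥ x = bf M x w := fun x => dotProduct_comm _ _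
    have h1 : ∀ x, bf M x w = 0 → 0 ≤ bf M x x := by
      intro x hx
      by_contra hneg
      push Not at hneg
      have h2 := h w x hw
      rw [bf_comm hM w x, hx] at h2
      have := mul_pos_of_neg_of_neg hw hneg
      nlinarith
    refine ⟨M *ᵥ w, fun x hx => h1 x (by rw [← hl]; exact hx), fun x hx hxx => ?_⟩
    rw [hl] at hx
    refine mulVec_eq_zero_of fun y => ?_
    obtain ⟨y', hy'⟩ : ∃ y', y' = y + (-(bf M y w / bf M w w)) • w := ⟨_, rfl⟩
    have hy'w : bf M y' w = 0 := by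
      have hw0 : bf M w w ≠ 0 := hw.ne
      rw [hy', bf_add_left, bf_smul_left, neg_mul, div_mul_cancel₀ _ hw0, add_neg_cancel]
    have h3 : bf M y' x = 0 := by
      refine eq_zero_of_forall (b := bf M y' y') fun t => ?_
      have := h1 (t • x + y') (by rw [bf_add_left, bf_smul_left, hx, hy'w]; ring)
      rw [bf_add_left, bf_add_right, bf_add_right, bf_smul_left, bf_smul_left, bf_smul_right,
        bf_smul_right, hxx, bf_comm hM x y'] at this
      linarith
    rw [hy', bf_add_left, bf_smul_left, bf_comm hM w x, hx] at h3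
    linarith

lemma LC_of_ell {M : Matrix ι ι ℝ} (hM : M.IsSymm) (l : ι → ℝ)
    (h : ∀ x, l ⬝ᵥ x = 0 → 0 ≤ bf M x x) : LC M := by
  intro x y hx
  have hlx : l ⬝ᵥ x ≠ 0 := fun h0 => by have := h x h0; linarith
  set a := l ⬝ᵥ x with ha
  set b := l ⬝ᵥ y with hb
  have h1 := h (a • y + (-b) • x) (by
    rw [dotProduct_add, dotProduct_smul, dotProduct_smul, ← ha, ← hb]
    simp only [smul_eq_mul]; ring)
  rw [bf_add_left, bf_add_right, bf_add_right, bf_smul_left, bf_smul_left, bf_smul_left,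
    bf_smul_left, bf_smul_right, bf_smul_right, bf_smul_right, bf_smul_right,
    bf_comm hM y x] at h1
  have ha2 : 0 < a ^ 2 := by positivity
  have h2 : a ^ 2 * (bf M x x * bf M y y) ≤ a ^ 2 * bf M x y ^ 2 := by
    have h3 : (a ^ 2 * bf M y y - 2 * a * b * bf M x y + b ^ 2 * bf M x x) * bf M x x ≤ 0 := by
      apply mul_nonpos_of_nonneg_of_nonpos _ hx.le
      linarith
    nlinarith [sq_nonneg (b * bf M x x - a * bf M x y)]
  exact le_of_mul_le_mul_left h2 ha2

lemma LC_mono {M M' : Matrix ι ι ℝ} (hM : M.IsSymm) (hM' : M'.IsSymm) (h : LC M)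
    (hle : ∀ x, bf M x x ≤ bf M' x x) : LC M' := by
  obtain ⟨l, hl, -⟩ := ell_of_LC hM h
  exact LC_of_ell hM' l fun x hx => (hl x hx).trans (hle x)

lemma LC_smul {M : Matrix ι ι ℝ} {c : ℝ} (hc : 0 < c) (h : LC M) : LC (c • M) := by
  intro x y hx
  rw [bf_smul_mat] at hx ⊢
  rw [bf_smul_mat, bf_smul_mat]
  have hx' : bf M x x < 0 := by
    by_contra hn
    push Not at hn
    have := mul_nonneg hc.le hn
    linarith
  have := h x y hx'
  calc c * bf M x x * (c * bf M y y) = c ^ 2 * (bf M x x * bf M y y) := by ring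
    _ ≤ c ^ 2 * bf M x y ^ 2 := by gcongr
    _ = _ := by ring

lemma LC_smul_iff {M : Matrix ι ι ℝ} {c : ℝ} (hc : 0 < c) : LC (c • M) ↔ LC M := by
  refine ⟨fun h => ?_, LC_smul hc⟩
  have := LC_smul (inv_pos.mpr hc) h
  rwa [smul_smul, inv_mul_cancel₀ hc.ne', one_smul] at this

lemma isClosed_LC (P R : Matrix ι ι ℝ) : IsClosed {s : ℝ | LC (P + s • R)} := by
  have : {s : ℝ | LC (P + s • R)} = ⋂ x : ι → ℝ, ⋂ y : ι → ℝ,
      ({s : ℝ | 0 ≤ bf P x x + s * bf R x x} ∪
        {s : ℝ | (bf P x x + s * bf R x x) * (bf P y y + s * bf R y y) ≤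
          (bf P x y + s * bf R x y) ^ 2}) := by
    ext s
    simp only [Set.mem_ofPred_eq, Set.mem_iInter, Set.mem_union, LC, bf_add_mat, bf_smul_mat]
    refine forall_congr' fun x => forall_congr' fun y => ?_
    constructor
    · intro h
      rcases lt_or_ge (bf P x x + s * bf R x x) 0 with h1 | h1
      · exact Or.inr (h h1)
      · exact Or.inl h1
    · rintro (h | h) h1
      · exact absurd h (not_le.mpr h1)
      · exact h
  rw [this]
  refine isClosed_iInter fun x => isClosed_iInter fun y => ?_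
  refine IsClosed.union (isClosed_le (by fun_prop) (by fun_prop))
    (isClosed_le (by fun_prop) (by fun_prop))

/-- The jump lemma. -/
theorem jump {P R : Matrix ι ι ℝ} (hP : P.IsSymm) (hR : R.IsSymm) {sa sb : ℝ} (hab : sa < sb)
    (ha : LC (P + sa • R)) (hb : ¬ LC (P + sb • R)) :
    ∃ s, sa ≤ s ∧ s ≤ sb ∧ ∃ v : ι → ℝ, v ≠ 0 ∧ (P + s • R) *ᵥ v = 0 ∧ bf R v v ≤ 0 := by
  classical
  have hcomp : IsCompact (Set.Icc sa sb ∩ {s : ℝ | LC (P + s • R)}) :=
    isCompact_Icc.inter_right (isClosed_LC P R)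
  obtain ⟨s, ⟨⟨hs1, hs2⟩, hs3⟩, hs4⟩ := hcomp.exists_isGreatest ⟨sa, ⟨le_rfl, hab.le⟩, ha⟩
  have hs3' : LC (P + s • R) := hs3
  have hslt : s < sb := lt_of_le_of_ne hs2 (fun h => hb (h ▸ hs3'))
  refine ⟨s, hs1, hs2, ?_⟩
  by_contra hcon
  push Not at hcon
  set F := P + s • R with hF
  have hFs : F.IsSymm := hP.add (hR.smul s)
  obtain ⟨l, hl1, hl2⟩ := ell_of_LC hFs hs3'
  -- small perturbations stay nonnegative on the hyperplane
  have key : ∃ e0 : ℝ, 0 < e0 ∧ ∀ e, 0 < e → e ≤ e0 → ∀ x, l ⬝ᵥ x = 0 → ‖x‖ = 1 →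
      0 ≤ bf F x x + e * bf R x x := by
    set K : Set (ι → ℝ) := {x | x ∈ Metric.sphere (0 : ι → ℝ) 1 ∧ l ⬝ᵥ x = 0 ∧ bf R x x ≤ 0}
      with hK
    have hKc : IsCompact K := by
      have : K = Metric.sphere (0 : ι → ℝ) 1 ∩ ({x | l ⬝ᵥ x = 0} ∩ {x | bf R x x ≤ 0}) := by
        ext x; simp [hK]
      rw [this]
      refine (isCompact_sphere _ _).inter_right (IsClosed.inter ?_ ?_)
      · refine isClosed_eq ?_ continuous_const
        unfold dotProduct; fun_prop
      · exact isClosed_le (continuous_bf R) continuous_const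
    rcases K.eq_empty_or_nonempty with hE | hE
    · refine ⟨1, one_pos, fun e he _ x hx hx1 => ?_⟩
      have hRx : 0 < bf R x x := by
        by_contra hn
        push Not at hn
        have : x ∈ K := ⟨by simpa using hx1, hx, hn⟩
        rw [hE] at this; exact this
      have := hl1 x hx
      positivity
    · obtain ⟨x0, hx0, hx0'⟩ := hKc.exists_isMinOn hE (continuous_bf F).continuousOn
      obtain ⟨x1, hx1, hx1'⟩ := hKc.exists_isMinOn hE (continuous_bf R).continuousOn
      have hd : 0 < bf F x0 x0 := by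
        refine lt_of_le_of_ne (hl1 x0 hx0.2.1) fun h0 => ?_
        have h1 := hl2 x0 hx0.2.1 h0.symm
        have hne : x0 ≠ 0 := by
          rintro rfl
          have := hx0.1
          simp at this
        have := hcon x0 hne h1
        linarith [hx0.2.2]
      have hm : bf R x1 x1 ≤ 0 := hx1.2.2
      refine ⟨bf F x0 x0 / (1 - bf R x1 x1), by
        have : 0 < 1 - bf R x1 x1 := by linarith
        positivity, fun e he he' x hx hxn => ?_⟩
      by_cases hRx : bf R x x ≤ 0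
      · have hxK : x ∈ K := ⟨by simpa using hxn, hx, hRx⟩
        have h1 : bf F x0 x0 ≤ bf F x x := hx0' hxK
        have h2 : bf R x1 x1 ≤ bf R x x := hx1' hxK
        rw [le_div_iff₀ (by linarith)] at he'
        nlinarith
      · push Not at hRx
        have := hl1 x hx
        positivity
  obtain ⟨e0, he0, hkey⟩ := key
  set e := min e0 (sb - s) with he
  have hepos : 0 < e := lt_min he0 (by linarith)
  have hLC : LC (P + (s + e) • R) := by
    refine LC_of_ell (hP.add (hR.smul _)) l fun x hx => ?_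
    have e1 : bf (P + (s + e) • R) x x = bf F x x + e * bf R x x := by
      rw [hF]; simp only [bf_add_mat, bf_smul_mat]; ring
    rw [e1]
    by_cases hx0 : x = 0
    · subst hx0; simp [bf]
    · have hn : 0 < ‖x‖ := norm_pos_iff.mpr hx0
      have h1 := hkey e hepos (min_le_left _ _) (‖x‖⁻¹ • x)
        (by rw [dotProduct_smul, hx, smul_zero])
        (by rw [norm_smul, norm_inv, norm_norm, inv_mul_cancel₀ hn.ne'])
      rw [bf_smul_left, bf_smul_left, bf_smul_right, bf_smul_right] at h1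
      have h2 : 0 ≤ (‖x‖⁻¹) ^ 2 * (bf F x x + e * bf R x x) := by linarith
      by_contra hneg
      push Not at hneg
      have : (‖x‖⁻¹) ^ 2 * (bf F x x + e * bf R x x) < 0 :=
        mul_neg_of_pos_of_neg (by positivity) hneg
      linarith
  have h5 := hs4 ⟨⟨by linarith, by have := min_le_right e0 (sb - s); linarith⟩, hLC⟩
  linarith

/-- A nonzero vector orthogonal to three given ones. -/
lemma exists_orth (hcard : 4 ≤ Fintype.card ι) (a b c : ι → ℝ) :
    ∃ z : ι → ℝ, z ≠ 0 ∧ a ⬝ᵥ z = 0 ∧ b ⬝ᵥ z = 0 ∧ c ⬝ᵥ z = 0 := by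
  let L : (ι → ℝ) →ₗ[ℝ] (Fin 3 → ℝ) := Matrix.mulVecLin (Matrix.of ![a, b, c])
  have hlt : Module.finrank ℝ (Fin 3 → ℝ) < Module.finrank ℝ (ι → ℝ) := by
    simp; omega
  obtain ⟨z, hz, hz0⟩ := (Submodule.ne_bot_iff _).mp (LinearMap.ker_ne_bot_of_finrank_lt hlt
    (f := L))
  rw [LinearMap.mem_ker] at hz
  refine ⟨z, hz0, ?_, ?_, ?_⟩
  · exact congrFun hz 0
  · exact congrFun hz 1
  · exact congrFun hz 2

end Q187.Agg
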