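import Pool.Agent.Q187.Agg.Core
import Pool.Agent.Q187.Agg.Eig

/-!
# Aggregations of three quadratic inequalities under PDLC
-/

open Matrix

namespace Q187.Agg

variable {n : ℕ}

section defs

variable (A : Fin 3 → Matrix (Fin n) (Fin n) ℝ) (b : Fin 3 → Fin n → ℝ) (c : Fin 3 → ℝ)

/-- `f_i(x) = xᵀ A_i x + 2 b_iᵀ x + c_i` -/
def fq (i : Fin 3) (x : Fin n → ℝ) : ℝ := x ⬝ᵥ (A i *ᵥ x) + 2 * (b i ⬝ᵥ x) + c i

/-- `Q_i = [[A_i, b_i], [b_iᵀ, c_i]]` -/
def Qm (i : Fin 3) : Matrix (Fin n ⊕ Unit) (Fin n ⊕ Unit) ℝ :=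
  fromBlocks (A i) (replicateCol Unit (b i)) (replicateRow Unit (b i)) (Matrix.of fun _ _ => c i)

/-- `S = {x : f_i(x) < 0, i = 1, 2, 3}` -/
def Sset : Set (Fin n → ℝ) := {x | ∀ i, fq A b c i x < 0}

/-- `Q_λ = ∑ λ_i Q_i` -/
def Ql (l : Fin 3 → ℝ) : Matrix (Fin n ⊕ Unit) (Fin n ⊕ Unit) ℝ := ∑ i, l i • Qm A b c i

/-- `S_λ = {x : ∑ λ_i f_i(x) < 0}` -/
def Slam (l : Fin 3 → ℝ) : Set (Fin n → ℝ) := {x | ∑ i, l i * fq A b c i x < 0}

/-- good aggregations -/
def Good (l : Fin 3 → ℝ) : Prop :=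
  (∀ i, 0 ≤ l i) ∧ l ≠ 0 ∧ convexHull ℝ (Sset A b c) ⊆ Slam A b c l ∧ AtMostOneNeg (Ql A b c l)

/-- positive definite linear combination -/
def PDLC : Prop := ∃ θ : Fin 3 → ℝ, (Ql A b c θ).PosDef

end defs

/-- the lifted vector `(x, 1)` -/
def lft (x : Fin n → ℝ) : Fin n ⊕ Unit → ℝ := Sum.elim x (fun _ => 1)

variable {A : Fin 3 → Matrix (Fin n) (Fin n) ℝ} {b : Fin 3 → Fin n → ℝ} {c : Fin 3 → ℝ}

lemma bf_Qm (i : Fin 3) (x y : Fin n → ℝ) :
    bf (Qm A b c i) (lft x) (lft y) = x ⬝ᵥ (A i *ᵥ y) + b i ⬝ᵥ x + b i ⬝ᵥ y + c i := by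
  unfold bf Qm lft
  rw [fromBlocks_mulVec]
  simp only [Sum.elim_comp_inl, Sum.elim_comp_inr]
  simp only [dotProduct, Fintype.sum_sum_type, Sum.elim_inl, Sum.elim_inr, Pi.add_apply,
    mulVec, replicateCol_apply, replicateRow_apply, Finset.univ_unique, Finset.sum_singleton,
    mul_one, one_mul, mul_add, Finset.sum_add_distrib, Matrix.of_apply]
  have : ∑ j, x j * b i j = ∑ j, b i j * x j := Finset.sum_congr rfl fun j _ => mul_comm _ _
  rw [this]
  ring

lemma bf_Qm_self (i : Fin 3) (x : Fin n → ℝ) :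
    bf (Qm A b c i) (lft x) (lft x) = fq A b c i x := by
  rw [bf_Qm]; unfold fq; ring

lemma bf_Ql (l : Fin 3 → ℝ) (u v : Fin n ⊕ Unit → ℝ) :
    bf (Ql A b c l) u v = ∑ i, l i * bf (Qm A b c i) u v := by
  unfold Ql
  simp only [Fin.sum_univ_three, bf_add_mat, bf_smul_mat]

lemma bf_Ql_self (l : Fin 3 → ℝ) (x : Fin n → ℝ) :
    bf (Ql A b c l) (lft x) (lft x) = ∑ i, l i * fq A b c i x := by
  rw [bf_Ql]; simp only [bf_Qm_self]

lemma Qm_symm (hA : ∀ i, (A i).IsSymm) (i : Fin 3) : (Qm A b c i).IsSymm := by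
  unfold Qm
  rw [Matrix.IsSymm, fromBlocks_transpose, (hA i).eq, transpose_replicateCol,
    transpose_replicateRow]
  rfl

lemma Ql_symm (hA : ∀ i, (A i).IsSymm) (l : Fin 3 → ℝ) : (Ql A b c l).IsSymm := by
  unfold Ql
  simp only [Fin.sum_univ_three]
  exact (((Qm_symm hA 0).smul _).add ((Qm_symm hA 1).smul _)).add ((Qm_symm hA 2).smul _)

lemma lft_ne_zero (x : Fin n → ℝ) : lft x ≠ 0 := by
  intro h
  have := congrFun h (Sum.inr ())
  simp [lft] at this

lemma Ql_comb (s t : ℝ) (l m : Fin 3 → ℝ) :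
    Ql A b c (s • l + t • m) = s • Ql A b c l + t • Ql A b c m := by
  unfold Ql
  simp only [Fin.sum_univ_three, Pi.add_apply, Pi.smul_apply, smul_eq_mul, add_smul, mul_smul,
    smul_add]
  abel

lemma sum_neg_of_mem {l : Fin 3 → ℝ} (h0 : ∀ i, 0 ≤ l i) (hne : l ≠ 0) {x : Fin n → ℝ}
    (hx : x ∈ Sset A b c) : ∑ i, l i * fq A b c i x < 0 := by
  obtain ⟨i, hi⟩ := Function.ne_iff.mp hne
  have hi' : 0 < l i := lt_of_le_of_ne (h0 i) (Ne.symm hi)
  exact Finset.sum_neg' (fun j _ => mul_nonpos_of_nonneg_of_nonpos (h0 j) (hx j).le)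
    ⟨i, Finset.mem_univ i, mul_neg_of_pos_of_neg hi' (hx i)⟩

/-- pairwise negativity -/
def PNeg (A : Fin 3 → Matrix (Fin n) (Fin n) ℝ) (b : Fin 3 → Fin n → ℝ) (c : Fin 3 → ℝ)
    (l : Fin 3 → ℝ) : Prop :=
  ∀ s ∈ Sset A b c, ∀ s' ∈ Sset A b c, bf (Ql A b c l) (lft s) (lft s') < 0

lemma lft_comb (x y : Fin n → ℝ) (s t : ℝ) (h : s + t = 1) :
    lft (s • x + t • y) = s • lft x + t • lft y := by
  funext i
  cases i with
  | inl i => simp [lft]
  | inr i => simp [lft, h]

lemma good_of_pneg (hA : ∀ i, (A i).IsSymm) {l : Fin 3 → ℝ} (h0 : ∀ i, 0 ≤ l i) (hne : l ≠ 0)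
    (hLC : LC (Ql A b c l)) (hp : PNeg A b c l) : Good A b c l := by
  refine ⟨h0, hne, ?_, atMost_of_LC (Ql_symm hA l) hLC⟩
  set Q := Ql A b c l with hQ
  have step1 : ∀ s' ∈ Sset A b c, ∀ x ∈ convexHull ℝ (Sset A b c), bf Q (lft x) (lft s') < 0 := by
    intro s' hs'
    have hconv : Convex ℝ {x : Fin n → ℝ | bf Q (lft x) (lft s') < 0} := by
      intro x hx y hy s t hs ht hst
      simp only [Set.mem_ofPred_eq] at hx hy ⊢
      rw [lft_comb x y s t hst, bf_add_left, bf_smul_left, bf_smul_left]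
      rcases eq_or_lt_of_le hs with h | h
      · have : t = 1 := by linarith
        rw [← h, this]; linarith
      · have := mul_neg_of_pos_of_neg h hx
        have := mul_nonpos_of_nonneg_of_nonpos ht hy.le
        linarith
    exact fun x hx => convexHull_min (fun s hs => hp s hs s' hs') hconv hx
  intro x hx
  have hconv : Convex ℝ {y : Fin n → ℝ | bf Q (lft x) (lft y) < 0} := by
    intro y hy z hz s t hs ht hst
    simp only [Set.mem_ofPred_eq] at hy hz ⊢
    rw [lft_comb y z s t hst, bf_add_right, bf_smul_right, bf_smul_right]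
    rcases eq_or_lt_of_le hs with h | h
    · have : t = 1 := by linarith
      rw [← h, this]; linarith
    · have := mul_neg_of_pos_of_neg h hy
      have := mul_nonpos_of_nonneg_of_nonpos ht hz.le
      linarith
  have h2 : bf Q (lft x) (lft x) < 0 :=
    convexHull_min (fun s' hs' => step1 s' hs' x hx) hconv hx
  show ∑ i, l i * fq A b c i x < 0
  rw [← bf_Ql_self]
  exact h2

lemma pneg_of_good (hA : ∀ i, (A i).IsSymm) {l : Fin 3 → ℝ} (h : Good A b c l) :
    PNeg A b c l := by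
  obtain ⟨h0, hne, hsub, hN⟩ := h
  have hLC := LC_of_atMost hN
  intro s hs s' hs'
  set Q := Ql A b c l with hQ
  have a1 : bf Q (lft s) (lft s) < 0 := by rw [hQ, bf_Ql_self]; exact sum_neg_of_mem h0 hne hs
  have a2 : bf Q (lft s') (lft s') < 0 := by rw [hQ, bf_Ql_self]; exact sum_neg_of_mem h0 hne hs'
  by_contra hcon
  push Not at hcon
  have h1 := hLC (lft s) (lft s') a1
  have h2 := mul_pos_of_neg_of_neg a1 a2
  set p := bf Q (lft s) (lft s') with hp
  have hp0 : 0 < p := by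
    rcases eq_or_lt_of_le hcon with h | h
    · rw [← h] at h1; nlinarith
    · exact h
  set q := -bf Q (lft s) (lft s) with hq
  have hq0 : 0 < q := by linarith
  have hpq : 0 < p + q := by linarith
  -- the convex combination
  have hmem : (p / (p + q)) • s + (q / (p + q)) • s' ∈ convexHull ℝ (Sset A b c) :=
    convex_convexHull ℝ _ (subset_convexHull ℝ _ hs) (subset_convexHull ℝ _ hs')
      (by positivity) (by positivity) (by field_simp)
  have h3 : ∑ i, l i * fq A b c i ((p / (p + q)) • s + (q / (p + q)) • s') < 0 := hsub hmem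
  rw [← bf_Ql_self, lft_comb _ _ _ _ (by field_simp), ← hQ, bf_add_left, bf_add_right,
    bf_add_right, bf_smul_left, bf_smul_left, bf_smul_left, bf_smul_left, bf_smul_right,
    bf_smul_right, bf_smul_right, bf_smul_right, bf_comm (Ql_symm hA l) (lft s') (lft s), ← hp]
    at h3
  have e1 : bf Q (lft s) (lft s) = -q := by rw [hq]; ring
  rw [e1] at h1 h3
  have e2 : p / (p + q) * (p / (p + q) * -q) + p / (p + q) * (q / (p + q) * p) +
      (q / (p + q) * (p / (p + q) * p) + q / (p + q) * (q / (p + q) * bf Q (lft s') (lft s')))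
      = q * (p ^ 2 + q * bf Q (lft s') (lft s')) / (p + q) ^ 2 := by
    field_simp; ring
  have h4 : 0 ≤ q * (p ^ 2 + q * bf Q (lft s') (lft s')) / (p + q) ^ 2 := by
    apply div_nonneg _ (sq_nonneg _)
    apply mul_nonneg hq0.le
    linarith
  have h5 : q * (p ^ 2 + q * bf Q (lft s') (lft s')) / (p + q) ^ 2 < 0 := by
    rw [← e2]; linarith
  linarith

/-- propagation of goodness along segments -/
lemma good_propagate (hA : ∀ i, (A i).IsSymm) {l m : Fin 3 → ℝ} (h : Good A b c l)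
    (h0 : ∀ i, 0 ≤ m i) (hne : m ≠ 0)
    (hLC : ∀ t : ℝ, 0 ≤ t → t ≤ 1 → LC (Ql A b c ((1 - t) • l + t • m))) : Good A b c m := by
  have hLm : LC (Ql A b c m) := by
    have := hLC 1 zero_le_one le_rfl
    simpa using this
  refine good_of_pneg hA h0 hne hLm fun s hs s' hs' => ?_
  have ha := pneg_of_good hA h s hs s' hs'
  set a := bf (Ql A b c l) (lft s) (lft s') with hadef
  set d := bf (Ql A b c m) (lft s) (lft s') with hddef
  by_contra hcon
  push Not at hcon
  have had : a - d < 0 := by linarith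
  set t := a / (a - d) with ht
  have ht0 : 0 < t := div_pos_of_neg_of_neg ha had
  have ht1 : t ≤ 1 := by
    rw [ht, div_le_one_of_neg had]; linarith
  have h1 := hLC t ht0.le ht1
  have hν0 : ∀ i, 0 ≤ ((1 - t) • l + t • m) i := fun i => by
    simp only [Pi.add_apply, Pi.smul_apply, smul_eq_mul]
    have := h.1 i
    have := h0 i
    have := mul_nonneg (sub_nonneg.mpr ht1) (h.1 i)
    positivity
  have hνne : (1 - t) • l + t • m ≠ 0 := by
    obtain ⟨i, hi⟩ := Function.ne_iff.mp hne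
    have hi' : 0 < m i := lt_of_le_of_ne (h0 i) (Ne.symm hi)
    intro hz
    have h2 := congrFun hz i
    simp only [Pi.add_apply, Pi.smul_apply, smul_eq_mul, Pi.zero_apply] at h2
    have := mul_nonneg (sub_nonneg.mpr ht1) (h.1 i)
    have := mul_pos ht0 hi'
    linarith
  have b1 : bf (Ql A b c ((1 - t) • l + t • m)) (lft s) (lft s) < 0 := by
    rw [bf_Ql_self]; exact sum_neg_of_mem hν0 hνne hs
  have b2 : bf (Ql A b c ((1 - t) • l + t • m)) (lft s') (lft s') < 0 := by
    rw [bf_Ql_self]; exact sum_neg_of_mem hν0 hνne hs'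
  have h3 := h1 _ (lft s') b1
  have h4 : bf (Ql A b c ((1 - t) • l + t • m)) (lft s) (lft s') = 0 := by
    rw [Ql_comb, bf_add_mat, bf_smul_mat, bf_smul_mat, ← hadef, ← hddef, ht]
    have : a - d ≠ 0 := had.ne
    field_simp
    ring
  rw [h4] at h3
  have := mul_pos_of_neg_of_neg b1 b2
  nlinarith

/-! ### pushing to the edges -/

lemma posDef_bf {M : Matrix (Fin n ⊕ Unit) (Fin n ⊕ Unit) ℝ} (h : M.PosDef)
    {x : Fin n ⊕ Unit → ℝ} (hx : x ≠ 0) : 0 < bf M x x := by
  have := h.dotProduct_mulVec_pos hx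
  simpa [bf] using this

lemma push (hn : 3 ≤ n) (hA : ∀ i, (A i).IsSymm) {θ : Fin 3 → ℝ} (hθ : (Ql A b c θ).PosDef)
    (hneg : ∃ i, θ i < 0) {l : Fin 3 → ℝ} (h : Good A b c l) :
    ∃ m : Fin 3 → ℝ, Good A b c m ∧ Slam A b c m ⊆ Slam A b c l ∧ ∃ i, θ i < 0 ∧ m i = 0 := by
  classical
  obtain ⟨i1, hi1⟩ := hneg
  obtain ⟨i0, hi0, hmin⟩ := Finset.exists_min_image (Finset.univ.filter fun i => θ i < 0)
    (fun i => l i / (-θ i)) ⟨i1, by simp [hi1]⟩
  have hθ0 : θ i0 < 0 := by simpa using hi0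
  set t := l i0 / (-θ i0) with ht
  have ht0 : 0 ≤ t := div_nonneg (h.1 i0) (by linarith)
  have hcard : 4 ≤ Fintype.card (Fin n ⊕ Unit) := by simp; omega
  have hmi0 : (l + t • θ) i0 = 0 := by
    simp only [Pi.add_apply, Pi.smul_apply, smul_eq_mul, ht]
    rw [div_neg, neg_mul, div_mul_cancel₀ _ hθ0.ne, add_neg_cancel]
  have hm0 : ∀ i, 0 ≤ (l + t • θ) i := by
    intro i
    simp only [Pi.add_apply, Pi.smul_apply, smul_eq_mul]
    rcases lt_or_ge (θ i) 0 with hi | hi
    · have h1 := hmin i (by simp [hi])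
      rw [le_div_iff₀ (by linarith)] at h1
      linarith
    · have := h.1 i
      positivity
  have hmne : l + t • θ ≠ 0 := by
    intro hz
    have hl : l = (-t) • θ := by
      rw [neg_smul]; exact eq_neg_of_add_eq_zero_left hz
    have htpos : 0 < t := by
      rcases eq_or_lt_of_le ht0 with h1 | h1
      · exfalso; apply h.2.1; rw [hl, ← h1]; simp
      · exact h1
    obtain ⟨v, hv, -⟩ := ell_of_LC (Ql_symm hA l) (LC_of_atMost h.2.2.2)
    obtain ⟨z, hz0, hz1, -, -⟩ := exists_orth hcard v v v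
    have h2 := hv z hz1
    have h3 := posDef_bf hθ hz0
    have h4 : bf (Ql A b c l) z z = -(t * bf (Ql A b c θ) z z) := by
      have : Ql A b c l = (-t) • Ql A b c θ := by
        have := Ql_comb (A := A) (b := b) (c := c) (-t) 0 θ 0
        simp only [smul_zero, add_zero, zero_smul] at this
        rw [hl]; exact this
      rw [this, bf_smul_mat]; ring
    have := mul_pos htpos h3
    linarith
  have hle : ∀ s : ℝ, 0 ≤ s → ∀ x, bf (Ql A b c l) x x ≤ bf (Ql A b c (l + s • θ)) x x := by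
    intro s hs x
    have e : Ql A b c (l + s • θ) = Ql A b c l + s • Ql A b c θ := by
      have := Ql_comb (A := A) (b := b) (c := c) 1 s l θ
      simpa using this
    rw [e, bf_add_mat, bf_smul_mat]
    by_cases hx : x = 0
    · subst hx; simp [bf]
    · have := posDef_bf hθ hx
      have : 0 ≤ s * bf (Ql A b c θ) x x := by positivity
      linarith
  refine ⟨l + t • θ, ?_, ?_, i0, hθ0, hmi0⟩
  · refine good_propagate hA h hm0 hmne fun s hs0 hs1 => ?_
    have e : (1 - s) • l + s • (l + t • θ) = l + (s * t) • θ := by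
      rw [sub_smul, smul_add, one_smul, mul_smul]; abel
    rw [e]
    exact LC_mono (Ql_symm hA l) (Ql_symm hA _) (LC_of_atMost h.2.2.2) (hle _ (by positivity))
  · intro x hx
    show ∑ i, l i * fq A b c i x < 0
    have hx' : ∑ i, (l + t • θ) i * fq A b c i x < 0 := hx
    rw [← bf_Ql_self] at hx' ⊢
    exact lt_of_le_of_lt (hle t ht0 _) hx'

/-! ### outermost aggregations on an edge -/

lemma sum_three {i j k : Fin 3} (hij : i ≠ j) (hik : i ≠ k) (hjk : j ≠ k) (g : Fin 3 → ℝ) :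
    ∑ m, g m = g i + g j + g k := by
  rw [Fin.sum_univ_three]
  fin_cases i <;> fin_cases j <;> fin_cases k <;>
    first
      | exact absurd rfl hij
      | exact absurd rfl hik
      | exact absurd rfl hjk
      | (simp only [Fin.mk_zero, Fin.mk_one, Fin.reduceFinMk, Fin.isValue]; try ring)

lemma cases3 : ∀ {i j k : Fin 3}, i ≠ j → i ≠ k → j ≠ k → ∀ m, m = i ∨ m = j ∨ m = k := by
  decide

lemma exists_two : ∀ i : Fin 3, ∃ j k : Fin 3, i ≠ j ∧ i ≠ k ∧ j ≠ k := by decide

/-- normalised coordinate -/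
noncomputable def rr (j k : Fin 3) (l : Fin 3 → ℝ) : ℝ := l j / (l j + l k)

lemma slam_iff {i j k : Fin 3} (hij : i ≠ j) (hik : i ≠ k) (hjk : j ≠ k) {l : Fin 3 → ℝ}
    (h0 : ∀ i, 0 ≤ l i) (hne : l ≠ 0) (hi : l i = 0) (x : Fin n → ℝ) :
    x ∈ Slam A b c l ↔ rr j k l * fq A b c j x + (1 - rr j k l) * fq A b c k x < 0 := by
  have hpos : 0 < l j + l k := by
    have hj := h0 j
    have hk := h0 k
    rcases eq_or_lt_of_le (add_nonneg hj hk) with h | h
    · exfalso; apply hne
      have ej : l j = 0 := by linarith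
      have ek : l k = 0 := by linarith
      funext m
      have hm : m = i ∨ m = j ∨ m = k := cases3 hij hik hjk m
      rcases hm with rfl | rfl | rfl
      · exact hi
      · exact ej
      · exact ek
    · exact h
  show ∑ m, l m * fq A b c m x < 0 ↔ _
  rw [sum_three hij hik hjk (fun m => l m * fq A b c m x), hi]
  have e : rr j k l * fq A b c j x + (1 - rr j k l) * fq A b c k x
      = (l j * fq A b c j x + l k * fq A b c k x) / (l j + l k) := by
    unfold rr; field_simp; ring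
  rw [e, div_neg_iff]
  constructor
  · intro h; right; exact ⟨by linarith, hpos⟩
  · rintro (⟨-, h⟩ | ⟨h, -⟩)
    · linarith
    · linarith

lemma between {r r1 r2 p q : ℝ} (h1 : r1 ≤ r) (h2 : r ≤ r2) (a1 : r1 * p + (1 - r1) * q < 0)
    (a2 : r2 * p + (1 - r2) * q < 0) : r * p + (1 - r) * q < 0 := by
  rcases le_total q p with h | h
  · nlinarith [mul_nonneg (sub_nonneg.mpr h2) (sub_nonneg.mpr h)]
  · nlinarith [mul_nonneg (sub_nonneg.mpr h1) (sub_nonneg.mpr h)]

/-- Two outermost elements suffice on one edge. -/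
lemma outer {i j k : Fin 3} (hij : i ≠ j) (hik : i ≠ k) (hjk : j ≠ k)
    (G : Finset (Fin 3 → ℝ)) (hG : ∀ l ∈ G, Good A b c l) (hGi : ∀ l ∈ G, l i = 0) :
    ∃ H : Finset (Fin 3 → ℝ), H.card ≤ 2 ∧ (∀ l ∈ H, Good A b c l) ∧
      ∀ x, (∀ l ∈ H, x ∈ Slam A b c l) → ∀ l ∈ G, x ∈ Slam A b c l := by
  classical
  rcases G.eq_empty_or_nonempty with hE | hE
  · exact ⟨∅, by simp, by simp, by simp [hE]⟩
  obtain ⟨l1, h1, h1'⟩ := Finset.exists_min_image G (rr j k) hE
  obtain ⟨l2, h2, h2'⟩ := Finset.exists_max_image G (rr j k) hE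
  refine ⟨{l1, l2}, Finset.card_le_two, ?_, ?_⟩
  · intro l hl
    simp only [Finset.mem_insert, Finset.mem_singleton] at hl
    rcases hl with rfl | rfl
    · exact hG _ h1
    · exact hG _ h2
  · intro x hx l hl
    have a1 := hx l1 (by simp)
    have a2 := hx l2 (by simp)
    rw [slam_iff hij hik hjk (hG l1 h1).1 (hG l1 h1).2.1 (hGi l1 h1)] at a1
    rw [slam_iff hij hik hjk (hG l2 h2).1 (hG l2 h2).2.1 (hGi l2 h2)] at a2
    rw [slam_iff hij hik hjk (hG l hl).1 (hG l hl).2.1 (hGi l hl)]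
    exact between (h1' l hl) (h2' l hl) a1 a2

/-- With a good vertex one further element suffices on an edge at this vertex. -/
lemma outer_vertex {i j k : Fin 3} (hij : i ≠ j) (hik : i ≠ k) (hjk : j ≠ k)
    (G : Finset (Fin 3 → ℝ)) (hG : ∀ l ∈ G, Good A b c l) (hGi : ∀ l ∈ G, l i = 0) :
    ∃ H : Finset (Fin 3 → ℝ), H.card ≤ 1 ∧ (∀ l ∈ H, Good A b c l) ∧
      ∀ x, x ∈ Slam A b c (Pi.single j 1) → (∀ l ∈ H, x ∈ Slam A b c l) →
        ∀ l ∈ G, x ∈ Slam A b c l := by
  classical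
  rcases G.eq_empty_or_nonempty with hE | hE
  · exact ⟨∅, by simp, by simp, by simp [hE]⟩
  obtain ⟨l1, h1, h1'⟩ := Finset.exists_min_image G (rr j k) hE
  refine ⟨{l1}, by simp, ?_, ?_⟩
  · intro l hl
    simp only [Finset.mem_singleton] at hl
    rw [hl]; exact hG _ h1
  · intro x hxj hx l hl
    have a1 := hx l1 (by simp)
    rw [slam_iff hij hik hjk (hG l1 h1).1 (hG l1 h1).2.1 (hGi l1 h1)] at a1
    rw [slam_iff hij hik hjk (hG l hl).1 (hG l hl).2.1 (hGi l hl)]
    have a2 : (1 : ℝ) * fq A b c j x + (1 - 1) * fq A b c k x < 0 := by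
      have h3 : ∑ m, (Pi.single j 1 : Fin 3 → ℝ) m * fq A b c m x < 0 := hxj
      rw [sum_three hij hik hjk (fun m => (Pi.single j 1 : Fin 3 → ℝ) m * fq A b c m x)] at h3
      simp only [Pi.single_eq_same, Pi.single_eq_of_ne hij, Pi.single_eq_of_ne hjk.symm] at h3
      linarith
    refine between (h1' l hl) ?_ a1 a2
    unfold rr
    have q1 := (hG l hl).1 j
    have q2 := (hG l hl).1 k
    exact div_le_one_of_le₀ (by linarith) (by linarith)

/-! ### interior points of edges and non-good vertices -/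

lemma half (hA : ∀ i, (A i).IsSymm) {θ : Fin 3 → ℝ} {i j k : Fin 3} (hij : i ≠ j) (hik : i ≠ k)
    (hjk : j ≠ k) (hθj : θ j < 0) (hθk : θ k < 0) {l : Fin 3 → ℝ} (h : Good A b c l)
    (hi : l i = 0) (hj : 0 < l j) (hk : 0 < l k) (hng : ¬ Good A b c (Pi.single j 1)) :
    LC (((l j / (-θ j)) / (l j / (-θ j) + l k / (-θ k))) • ((-θ j) • Qm A b c j) +
        (1 - (l j / (-θ j)) / (l j / (-θ j) + l k / (-θ k))) • ((-θ k) • Qm A b c k)) ∧
      ∃ x, (l j / (-θ j)) / (l j / (-θ j) + l k / (-θ k)) < x ∧ x ≤ 1 ∧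
        ¬ LC (x • ((-θ j) • Qm A b c j) + (1 - x) • ((-θ k) • Qm A b c k)) := by
  have hj' : 0 < -θ j := by linarith
  have hk' : 0 < -θ k := by linarith
  -- general point of the edge
  have gen : ∀ (m : Fin 3 → ℝ), m i = 0 → 0 < m j / (-θ j) + m k / (-θ k) →
      (LC (((m j / (-θ j)) / (m j / (-θ j) + m k / (-θ k))) • ((-θ j) • Qm A b c j) +
        (1 - (m j / (-θ j)) / (m j / (-θ j) + m k / (-θ k))) • ((-θ k) • Qm A b c k)) ↔
        LC (Ql A b c m)) := by
    intro m hm hpos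
    have e : Ql A b c m = (m j / (-θ j) + m k / (-θ k)) •
        (((m j / (-θ j)) / (m j / (-θ j) + m k / (-θ k))) • ((-θ j) • Qm A b c j) +
        (1 - (m j / (-θ j)) / (m j / (-θ j) + m k / (-θ k))) • ((-θ k) • Qm A b c k)) := by
      have e1 : Ql A b c m = m i • Qm A b c i + m j • Qm A b c j + m k • Qm A b c k := by
        ext p q
        unfold Ql
        rw [Matrix.sum_apply, sum_three hij hik hjk]
        simp only [Matrix.add_apply]
      rw [e1, hm, zero_smul, zero_add, smul_add, smul_smul, smul_smul, smul_smul, smul_smul]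
      set a := m j / (-θ j) with ha
      set d := m k / (-θ k) with hd
      have hma : m j = a * (-θ j) := by rw [ha, div_mul_cancel₀ _ hj'.ne']
      have hmd : m k = d * (-θ k) := by rw [hd, div_mul_cancel₀ _ hk'.ne']
      congr 2
      · rw [hma]; field_simp
      · rw [hmd]; field_simp; ring
    rw [e, LC_smul_iff hpos]
  have hpos0 : 0 < l j / (-θ j) + l k / (-θ k) := by positivity
  have hLC0 := (gen l hi hpos0).mpr (LC_of_atMost h.2.2.2)
  refine ⟨hLC0, ?_⟩
  have hex : ∃ t : ℝ, 0 ≤ t ∧ t ≤ 1 ∧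
      ¬ LC (Ql A b c ((1 - t) • l + t • (Pi.single j 1 : Fin 3 → ℝ))) := by
    by_contra hcon
    push Not at hcon
    refine hng (good_propagate hA h (fun m => ?_) ?_ hcon)
    · by_cases hm : m = j
      · subst hm; simp
      · rw [Pi.single_eq_of_ne hm]
    · intro hz
      have := congrFun hz j
      simp at this
  obtain ⟨t, ht0, ht1, hnLC⟩ := hex
  set m : Fin 3 → ℝ := (1 - t) • l + t • (Pi.single j 1 : Fin 3 → ℝ) with hm
  have mi : m i = 0 := by simp [hm, hi, Pi.single_eq_of_ne hij]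
  have mj : m j = (1 - t) * l j + t := by simp [hm]
  have mk : m k = (1 - t) * l k := by simp [hm, Pi.single_eq_of_ne hjk.symm]
  have hmj : 0 < m j := by
    rw [mj]
    rcases eq_or_lt_of_le ht0 with h0 | h0
    · rw [← h0]; linarith
    · have := mul_nonneg (sub_nonneg.mpr ht1) hj.le
      linarith
  have hmk : 0 ≤ m k := by rw [mk]; exact mul_nonneg (sub_nonneg.mpr ht1) hk.le
  have hposm : 0 < m j / (-θ j) + m k / (-θ k) := by positivity
  have hnLC' := (not_congr (gen m mi hposm)).mpr hnLC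
  refine ⟨(m j / (-θ j)) / (m j / (-θ j) + m k / (-θ k)), ?_, ?_, hnLC'⟩
  · refine lt_of_le_of_ne ?_ ?_
    · rw [div_le_div_iff₀ hpos0 hposm]
      have h1 : l j * m k ≤ m j * l k := by
        rw [mj, mk]; nlinarith [mul_nonneg ht0 hk.le]
      have h2 : l j / (-θ j) * (m k / (-θ k)) ≤ m j / (-θ j) * (l k / (-θ k)) := by
        rw [div_mul_div_comm, div_mul_div_comm]
        gcongr
      nlinarith
    · intro heq
      rw [heq] at hLC0
      exact hnLC' hLC0
  · exact div_le_one_of_le₀ (by have : 0 ≤ m k / (-θ k) := by positivity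
                                linarith) hposm.le

lemma edge_of (hA : ∀ i, (A i).IsSymm) {θ : Fin 3 → ℝ} {i j k : Fin 3} (hij : i ≠ j) (hik : i ≠ k)
    (hjk : j ≠ k) (hθj : θ j < 0) (hθk : θ k < 0) {l : Fin 3 → ℝ} (h : Good A b c l)
    (hi : l i = 0) (hj : 0 < l j) (hk : 0 < l k) (hngj : ¬ Good A b c (Pi.single j 1))
    (hngk : ¬ Good A b c (Pi.single k 1)) :
    Edge ((-θ j) • Qm A b c j) ((-θ k) • Qm A b c k) := by
  have hj' : 0 < -θ j := by linarith
  have hk' : 0 < -θ k := by linarith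
  have hpos0 : 0 < l j / (-θ j) + l k / (-θ k) := by positivity
  obtain ⟨g1, x2, g2, g3, g4⟩ := half hA hij hik hjk hθj hθk h hi hj hk hngj
  obtain ⟨-, x1, f2, f3, f4⟩ := half hA hik hij hjk.symm hθk hθj h hi hk hj hngk
  refine ⟨_, 1 - x1, x2, by linarith, ?_, g2, g3, g1, ?_, g4⟩
  · have : l k / (-θ k) / (l k / (-θ k) + l j / (-θ j))
        = 1 - l j / (-θ j) / (l j / (-θ j) + l k / (-θ k)) := by
      rw [add_comm (l k / (-θ k)), eq_sub_iff_add_eq, ← add_div, add_comm (l k / (-θ k)),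
        div_self hpos0.ne']
    rw [this] at f2
    linarith
  · rw [sub_sub_cancel, add_comm]; exact f4

/-- **At most five good aggregations are needed under PDLC.** -/
theorem five_suffice (hn : 3 ≤ n) (hA : ∀ i, (A i).IsSymm) (hP : PDLC A b c)
    (F : Finset (Fin 3 → ℝ)) (hF : ∀ l ∈ F, Good A b c l)
    (hconv : convexHull ℝ (Sset A b c) = ⋂ l ∈ F, Slam A b c l) :
    ∃ H : Finset (Fin 3 → ℝ), H.card ≤ 5 ∧ (∀ l ∈ H, Good A b c l) ∧
      convexHull ℝ (Sset A b c) = ⋂ l ∈ H, Slam A b c l := by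
  classical
  obtain ⟨θ, hθ⟩ := hP
  -- it suffices to find few good aggregations with small intersection
  suffices hs : ∃ H : Finset (Fin 3 → ℝ), H.card ≤ 5 ∧ (∀ l ∈ H, Good A b c l) ∧
      ((⋂ l ∈ H, Slam A b c l) ⊆ convexHull ℝ (Sset A b c)) by
    obtain ⟨H, h1, h2, h3⟩ := hs
    refine ⟨H, h1, h2, Set.Subset.antisymm ?_ h3⟩
    exact Set.subset_iInter₂ fun l hl => (h2 l hl).2.2.1
  by_cases hneg : ∃ i, θ i < 0
  swap
  · -- `θ ≥ 0`: then `S` is empty
    push Not at hneg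
    have hθne : θ ≠ 0 := by
      rintro rfl
      have := posDef_bf hθ (lft_ne_zero (fun _ : Fin n => 0))
      rw [bf_Ql] at this
      simp at this
    have hpos : ∀ x : Fin n → ℝ, 0 < ∑ i, θ i * fq A b c i x := fun x => by
      rw [← bf_Ql_self]; exact posDef_bf hθ (lft_ne_zero x)
    have hempty : Sset A b c = ∅ := by
      rw [Set.eq_empty_iff_forall_notMem]
      intro x hx
      have := sum_neg_of_mem hneg hθne hx
      linarith [hpos x]
    refine ⟨{θ}, by simp, ?_, ?_⟩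
    · intro l hl
      rw [Finset.mem_singleton] at hl
      rw [hl]
      refine ⟨hneg, hθne, ?_, ?_⟩
      · rw [hempty, convexHull_empty]; exact Set.empty_subset _
      · refine atMost_of_LC (Ql_symm hA θ) (LC_of_ell (Ql_symm hA θ) 0 fun x _ => ?_)
        by_cases hx : x = 0
        · subst hx; simp [bf]
        · exact (posDef_bf hθ hx).le
    · intro x hx
      simp only [Finset.mem_singleton, Set.iInter_iInter_eq_left] at hx
      have : ∑ i, θ i * fq A b c i x < 0 := hx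
      linarith [hpos x]
  -- push everything to the edges
  have hp : ∀ l : Fin 3 → ℝ, ∃ m : Fin 3 → ℝ, l ∈ F →
      (Good A b c m ∧ Slam A b c m ⊆ Slam A b c l ∧ ∃ i, θ i < 0 ∧ m i = 0) := by
    intro l
    by_cases hl : l ∈ F
    · obtain ⟨m, hm⟩ := push hn hA hθ hneg (hF l hl)
      exact ⟨m, fun _ => hm⟩
    · exact ⟨0, fun h => absurd h hl⟩
  choose p hp using hp
  set G : Finset (Fin 3 → ℝ) := F.image p with hG
  have hGgood : ∀ l ∈ G, Good A b c l := by
    intro l hl
    obtain ⟨m, hm, rfl⟩ := Finset.mem_image.mp hl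
    exact (hp m hm).1
  have hGzero : ∀ l ∈ G, ∃ i, θ i < 0 ∧ l i = 0 := by
    intro l hl
    obtain ⟨m, hm, rfl⟩ := Finset.mem_image.mp hl
    exact (hp m hm).2.2
  have hGsub : ∀ x, (∀ l ∈ G, x ∈ Slam A b c l) → x ∈ convexHull ℝ (Sset A b c) := by
    intro x hx
    rw [hconv]
    simp only [Set.mem_iInter]
    intro l hl
    exact (hp l hl).2.1 (hx (p l) (Finset.mem_image_of_mem p hl))
  -- parts on the edges
  have hpart : ∀ i, (∀ l ∈ G.filter (fun l => l i = 0), Good A b c l) ∧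
      ∀ l ∈ G.filter (fun l => l i = 0), l i = 0 := by
    intro i
    refine ⟨fun l hl => hGgood l (Finset.mem_filter.mp hl).1, fun l hl =>
      (Finset.mem_filter.mp hl).2⟩
  by_cases hC : ∃ i, ∀ l ∈ G, ∃ j, j ≠ i ∧ l j = 0
  · -- two edges suffice
    obtain ⟨i, hi⟩ := hC
    obtain ⟨j, k, hij, hik, hjk⟩ := exists_two i
    obtain ⟨H1, c1, g1, s1⟩ := outer hij.symm hjk hik (G.filter fun l => l j = 0) (hpart j).1
      (hpart j).2
    obtain ⟨H2, c2, g2, s2⟩ := outer hik.symm hjk.symm hij (G.filter fun l => l k = 0) (hpart k).1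
      (hpart k).2
    refine ⟨H1 ∪ H2, ?_, ?_, ?_⟩
    · have := Finset.card_union_le H1 H2
      omega
    · intro l hl
      rcases Finset.mem_union.mp hl with h | h
      · exact g1 l h
      · exact g2 l h
    · intro x hx
      simp only [Set.mem_iInter] at hx
      refine hGsub x fun l hl => ?_
      obtain ⟨m, hm1, hm2⟩ := hi l hl
      have hm : m = j ∨ m = k := (cases3 hij hik hjk m).resolve_left hm1
      rcases hm with rfl | rfl
      · exact s1 x (fun l' hl' => hx l' (Finset.mem_union_left _ hl')) l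
          (Finset.mem_filter.mpr ⟨hl, hm2⟩)
      · exact s2 x (fun l' hl' => hx l' (Finset.mem_union_right _ hl')) l
          (Finset.mem_filter.mpr ⟨hl, hm2⟩)
  · -- every edge has an interior good point
    push Not at hC
    have hθall : ∀ i, θ i < 0 := by
      intro i
      obtain ⟨l, hl, hl2⟩ := hC i
      obtain ⟨m, hm1, hm2⟩ := hGzero l hl
      by_cases hmi : m = i
      · rw [← hmi]; exact hm1
      · exact absurd hm2 (hl2 m hmi)
    have hint : ∀ i, ∃ l ∈ G, l i = 0 ∧ ∀ j, j ≠ i → 0 < l j := by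
      intro i
      obtain ⟨l, hl, hl2⟩ := hC i
      obtain ⟨m, hm1, hm2⟩ := hGzero l hl
      have hmi : m = i := by
        by_contra hmi
        exact hl2 m hmi hm2
      subst hmi
      exact ⟨l, hl, hm2, fun j hj => lt_of_le_of_ne ((hGgood l hl).1 j) (Ne.symm (hl2 j hj))⟩
    have hvert : ∃ i, Good A b c (Pi.single i 1) := by
      by_contra hno
      push Not at hno
      have hcard : 4 ≤ Fintype.card (Fin n ⊕ Unit) := by simp; omega
      obtain ⟨l0, m0, z0, p0⟩ := hint 0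
      obtain ⟨l1, m1, z1, p1⟩ := hint 1
      obtain ⟨l2, m2, z2, p2⟩ := hint 2
      have E01 := edge_of hA (i := 2) (j := 0) (k := 1) (by decide) (by decide) (by decide)
        (hθall 0) (hθall 1) (hGgood l2 m2) z2 (p2 0 (by decide)) (p2 1 (by decide)) (hno 0)
        (hno 1)
      have E02 := edge_of hA (i := 1) (j := 0) (k := 2) (by decide) (by decide) (by decide)
        (hθall 0) (hθall 2) (hGgood l1 m1) z1 (p1 0 (by decide)) (p1 2 (by decide)) (hno 0)
        (hno 2)
      have E12 := edge_of hA (i := 0) (j := 1) (k := 2) (by decide) (by decide) (by decide)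
        (hθall 1) (hθall 2) (hGgood l0 m0) z0 (p0 1 (by decide)) (p0 2 (by decide)) (hno 1)
        (hno 2)
      refine no_three_edges hcard ((Qm_symm hA 0).smul _) ((Qm_symm hA 1).smul _)
        ((Qm_symm hA 2).smul _) (fun x hx => ?_) E01 E02 E12
      have h1 := posDef_bf hθ hx
      rw [bf_Ql, Fin.sum_univ_three] at h1
      rw [bf_smul_mat, bf_smul_mat, bf_smul_mat]
      linarith
    obtain ⟨i, hi⟩ := hvert
    obtain ⟨j, k, hij, hik, hjk⟩ := exists_two i
    obtain ⟨H0, c0, g0, s0⟩ := outer hij hik hjk (G.filter fun l => l i = 0) (hpart i).1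
      (hpart i).2
    obtain ⟨H1, c1, g1, s1⟩ := outer_vertex hij.symm hjk hik (G.filter fun l => l j = 0)
      (hpart j).1 (hpart j).2
    obtain ⟨H2, c2, g2, s2⟩ := outer_vertex hik.symm hjk.symm hij (G.filter fun l => l k = 0)
      (hpart k).1 (hpart k).2
    refine ⟨insert (Pi.single i 1) (H0 ∪ (H1 ∪ H2)), ?_, ?_, ?_⟩
    · have h1 := Finset.card_union_le H1 H2
      have h2 := Finset.card_union_le H0 (H1 ∪ H2)
      have h3 := Finset.card_insert_le (Pi.single i 1 : Fin 3 → ℝ) (H0 ∪ (H1 ∪ H2))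
      omega
    · intro l hl
      rcases Finset.mem_insert.mp hl with h | h
      · rw [h]; exact hi
      rcases Finset.mem_union.mp h with h | h
      · exact g0 l h
      rcases Finset.mem_union.mp h with h | h
      · exact g1 l h
      · exact g2 l h
    · intro x hx
      simp only [Set.mem_iInter] at hx
      have hxi := hx (Pi.single i 1) (Finset.mem_insert_self _ _)
      have hx0 : ∀ l ∈ H0, x ∈ Slam A b c l := fun l hl => hx l (by simp [hl])
      have hx1 : ∀ l ∈ H1, x ∈ Slam A b c l := fun l hl => hx l (by simp [hl])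
      have hx2 : ∀ l ∈ H2, x ∈ Slam A b c l := fun l hl => hx l (by simp [hl])
      refine hGsub x fun l hl => ?_
      obtain ⟨m, -, hm2⟩ := hGzero l hl
      have hm : m = i ∨ m = j ∨ m = k := cases3 hij hik hjk m
      rcases hm with rfl | rfl | rfl
      · exact s0 x hx0 l (Finset.mem_filter.mpr ⟨hl, hm2⟩)
      · exact s1 x hxi hx1 l (Finset.mem_filter.mpr ⟨hl, hm2⟩)
      · exact s2 x hxi hx2 l (Finset.mem_filter.mpr ⟨hl, hm2⟩)

end Q187.Agg
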